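import Pool.Agent.Helper84.PL.Goals

/-!
# Project PL, packet MT: the block order is monotone
-/

set_option autoImplicit false

namespace Pool.Agent.Helper86.PL

open Pool.Agent.Helper84.PL

theorem exists_step {V : Type} [Fintype V] [PartialOrder V] {u v : V} (h : u < v) :
    ∃ z, u ⋖ z ∧ z ≤ v := by
  classical
  have hne : ((Finset.univ.filter fun z : V => u < z ∧ z ≤ v)).Nonempty :=
    ⟨v, Finset.mem_filter.mpr ⟨Finset.mem_univ v, h, le_refl v⟩⟩
  obtain ⟨z, hz, hmin⟩ := Finset.exists_minimal hne
  have hz' := (Finset.mem_filter.mp hz).2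
  refine ⟨z, ⟨hz'.1, fun c hc1 hc2 => ?_⟩, hz'.2⟩
  have h1 : c ∈ Finset.univ.filter fun z : V => u < z ∧ z ≤ v :=
    Finset.mem_filter.mpr ⟨Finset.mem_univ c, hc1, hc2.le.trans hz'.2⟩
  exact absurd (hmin h1 hc2.le) (not_le_of_gt hc2)

theorem mt : G_MT := by
  classical
  intro V _ _ R χ τ hB
  have wf : WellFounded (fun a b : V => b < a) := Finite.wellFounded_of_trans_of_irrefl _
  have step : ∀ u w : V, u ⋖ w → τ u ≤ τ w := by
    intro u w h
    by_cases hc : χ u = χ w
    · exact (hB.same u w h hc).le
    · exact (hB.diff u w h hc).le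
  have mono : ∀ v u : V, u ≤ v → τ u ≤ τ v := by
    intro v u
    induction u using wf.induction with
    | _ u ih =>
      intro huv
      rcases huv.eq_or_lt with rfl | hlt
      · exact le_refl _
      · obtain ⟨z, hz, hzv⟩ := exists_step hlt
        exact (step u z hz).trans (ih z hz.lt hzv)
  refine ⟨fun u v h => mono v u h, ?_⟩
  intro h hh u v
  induction u using wf.induction with
  | _ u ih =>
    intro hlt ht
    obtain ⟨z, hz, hzv⟩ := exists_step hlt
    have h1 := step u z hz
    have h2 := mono v z hzv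
    have h3 : τ u = τ z := le_antisymm h1 (by omega)
    have h4 := hh u z hz (hB.col u z h3)
    rcases hzv.eq_or_lt with rfl | hlt'
    · exact h4
    · exact h4.trans (ih z hz.lt hlt' (by omega))

end Pool.Agent.Helper86.PL
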